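import Pool.Agent.Q282.UZ.Ord
import Pool.Agent.U738.BN.Fam

/-!
# The order formula passes from `X` to `X × 𝔾_m`
-/

set_option autoImplicit false

open CategoryTheory CategoryTheory.Limits AlgebraicGeometry Pool.Agent.Y116.UV Pool.Agent.Q193.LT
  Pool.Agent.Q193.Zeta Pool.Agent.Q282.UK Pool.Agent.Q282.UZ Filter Topology

universe w

namespace Pool.Agent.U738.ZO

variable {A : ℤ → ℤ → Sch ℤ → ModuleCat.{w} ℚ} (hA : IsChow A) (B : Type) [CommRing B] [Algebra ℤ B]
  [Algebra.FiniteType ℤ B]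

include hA

lemma fin_times (m : ℤ) (h1 : FinRank (A (m - 1)) (aff ℤ B)) (h2 : FinRank (A m) (aff ℤ B)) :
    FinRank (A m) (aff ℤ (LaurentPolynomial B)) := by
  refine ⟨fun k => ?_, ?_⟩
  · obtain ⟨e⟩ := hA.torus B m k
    have := h1.1 k
    have := h2.1 (k - 1)
    exact Module.Finite.equiv e.symm
  · refine (h1.2.union (h2.2.preimage (Equiv.injective (Equiv.subRight (1 : ℤ))).injOn)).subset
      fun k hk => ?_
    by_contra h3
    rw [Set.mem_union, not_or] at h3
    obtain ⟨e⟩ := hA.torus B m k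
    have a1 : Subsingleton (A (m - 1) k (aff ℤ B)) := not_not.mp h3.1
    have a2 : Subsingleton (A m (k - 1) (aff ℤ B)) := not_not.mp h3.2
    exact hk e.toEquiv.subsingleton

lemma formula_times (h : Formula A (aff ℤ B)) : Formula A (aff ℤ (LaurentPolynomial B)) := by
  obtain ⟨G, hG, ⟨σ, hσ⟩, hm⟩ := h
  obtain ⟨τ, h1, h2⟩ := zeta_torus B
  have hB : FT False (aff ℤ B) := ft_aff False
  obtain ⟨C, k, b⟩ := ft_bounded hB
  have hfin : ∀ m, FinRank (A m) (aff ℤ (LaurentPolynomial B)) := fun m =>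
    fin_times hA B m (hm (m - 1)).1 (hm m).1
  refine ⟨(fun s => G (s + (-1))) * G⁻¹, (mero_sub hG (-1)).mul hG.inv,
    ⟨max (max (σ + 1) τ) ((k : ℝ) + 1), fun s hs => ?_⟩, fun m => ⟨hfin m, ?_⟩⟩
  · have a1 : σ + 1 < s.re := lt_of_le_of_lt ((le_max_left _ _).trans (le_max_left _ _)) hs
    have a2 : τ < s.re := lt_of_le_of_lt ((le_max_right _ _).trans (le_max_left _ _)) hs
    have a3 : (k : ℝ) + 1 < s.re := lt_of_le_of_lt (le_max_right _ _) hs
    have hne : zeta (aff ℤ B).left s ≠ 0 := by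
      rw [ft_zeta hB b a3]
      exact Complex.exp_ne_zero _
    rw [Pi.mul_apply, Pi.inv_apply, ← sub_eq_add_neg, hσ (s - 1) (by
      rw [Complex.sub_re, Complex.one_re]
      linarith), hσ s (by linarith), h2 s a2, mul_assoc, mul_inv_cancel₀ hne, mul_one]
  · have e : meromorphicOrderAt (fun s => G (s + (-1))) (m : ℂ) =
        meromorphicOrderAt G ((m : ℂ) + (-1)) :=
      meromorphicOrderAt_comp_add_const_eq_meromorphicOrderAt
    rw [meromorphicOrderAt_mul ((mero_sub hG (-1)) _ trivial) (hG.inv _ trivial),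
      e, ← sub_eq_add_neg, meromorphicOrderAt_inv, (hm m).2]
    have h3 := (hm (m - 1)).2
    rw [Int.cast_sub, Int.cast_one] at h3
    rw [h3, rk_torus hA B m (hfin m)]
    change _ + ((-(-rk (A m) (aff ℤ B)) : ℤ) : WithTop ℤ) = _
    rw [← WithTop.coe_add]
    congr 1
    ring

/-- The schemes for which the order formula holds. -/
theorem posD_formula {N : WithBot ℕ∞} (hd : ∀ (B : Type) [CommRing B] [Algebra ℤ B]
    [Algebra.FiniteType ℤ B], ringKrullDim B ≤ N → Formula A (aff ℤ B)) :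
    Pool.Agent.U738.BN.PosD False (Formula A) N where
  iso := (clo_formula hA).iso
  total := (clo_formula hA).total
  times B _ _ _ h := formula_times hA B h
  dim := hd

end Pool.Agent.U738.ZO
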